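import Pool.Agent.Helper19.PU.Defs
import Mathlib.Analysis.InnerProductSpace.Calculus
import Mathlib.Analysis.SpecialFunctions.Sqrt

/-!
# PU-4: the covariant derivative of the restriction of a field
-/

open MeasureTheory Set Metric Filter Module
open scoped NNReal Topology RealInnerProductSpace ENNReal Real ContDiff Manifold

namespace Pool.Agent.Helper19.PU

variable {E : Type*} [NormedAddCommGroup E] [InnerProductSpace ℝ E]

private lemma PU4_hasFDerivAt_normalize {x : E} (hx : ‖x‖ = 1) :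
    HasFDerivAt (fun y : E => ‖y‖⁻¹ • y) (pr x) x := by
  have h1 : HasFDerivAt (fun y : E => ‖y‖ ^ 2) (2 • (innerSL ℝ x)) x :=
    (hasStrictFDerivAt_norm_sq x).hasFDerivAt
  have h2 := h1.sqrt (by rw [hx]; norm_num)
  have h3 : HasFDerivAt (fun y : E => ‖y‖) (innerSL ℝ x) x := by
    have e : (fun y : E => √(‖y‖ ^ 2)) = fun y : E => ‖y‖ := by
      funext y; exact Real.sqrt_sq (norm_nonneg y)
    rw [e] at h2
    refine h2.congr_fderiv ?_
    ext v
    simp [hx]
  have h4 : HasFDerivAt (fun y : E => ‖y‖⁻¹) (-(innerSL ℝ x)) x := by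
    have h := (hasDerivAt_inv (x := ‖x‖) (by rw [hx]; norm_num)).comp_hasFDerivAt x h3
    refine h.congr_fderiv ?_
    ext v
    simp [hx]
  have h5 := h4.smul (hasFDerivAt_id x)
  refine h5.congr_fderiv ?_
  ext v
  simp [pr, hx, sub_eq_add_neg]

theorem covDeriv_of_hasFDerivAt (G : E → E) {G' : E →L[ℝ] E} (x : sphere (0 : E) 1)
    (hG : HasFDerivAt G G' (x : E)) :
    covDeriv (fun y : sphere (0 : E) 1 => G y) x = pr (x : E) ∘L G' ∘L pr (x : E) := by
  have hx : ‖(x : E)‖ = 1 := mem_sphere_zero_iff_norm.1 x.2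
  have hx0 : (x : E) ≠ 0 := by
    intro h; rw [h, norm_zero] at hx; exact zero_ne_one hx
  have h1 := PU4_hasFDerivAt_normalize hx
  have hG' : HasFDerivAt G G' (‖(x : E)‖⁻¹ • (x : E)) := by
    rw [hx, inv_one, one_smul]; exact hG
  have h2 : HasFDerivAt (fun y : E => G (‖y‖⁻¹ • y)) (G' ∘L pr (x : E)) (x : E) :=
    HasFDerivAt.comp (f := fun y : E => ‖y‖⁻¹ • y) (x : E) hG' h1
  have h3 : radExt (fun y : sphere (0 : E) 1 => G y) =ᶠ[𝓝 (x : E)] fun y => G (‖y‖⁻¹ • y) := by
    filter_upwards [isOpen_ne.mem_nhds hx0] with y hy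
    have hy' : ¬ y = 0 := hy
    simp only [radExt, hy', dif_neg, not_false_eq_true]
  have h4 : fderiv ℝ (radExt (fun y : sphere (0 : E) 1 => G y)) x = G' ∘L pr (x : E) :=
    (h2.congr_of_eventuallyEq h3).fderiv
  rw [covDeriv, h4]
  ext v
  simp only [pr, ContinuousLinearMap.comp_apply, _root_.sub_apply,
    ContinuousLinearMap.smulRight_apply, ContinuousLinearMap.id_apply, innerSL_apply_apply]

end Pool.Agent.Helper19.PU
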